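import Pool.Agent.Run7.h12.ZC.Lim

set_option autoImplicit false

/-!
# The counterexample (for MP_37fc1f_nt)
-/

open Filter Topology

namespace Pool.Agent.Run7.h12.ZC

open Polynomial in
theorem eval_div' (p q : ℚ[X]) (x : ℚ) (hx : q.eval x ≠ 0) :
    RatFunc.eval (RingHom.id ℚ) x (algebraMap ℚ[X] (RatFunc ℚ) p / algebraMap ℚ[X] (RatFunc ℚ) q) =
      p.eval x / q.eval x := by
  have hq : q ≠ 0 := by rintro rfl; simp at hx
  have hq' : algebraMap ℚ[X] (RatFunc ℚ) q ≠ 0 := by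
    simpa using hq
  have h1 : Polynomial.eval₂ (RingHom.id ℚ) x
      (RatFunc.denom (algebraMap ℚ[X] (RatFunc ℚ) p / algebraMap ℚ[X] (RatFunc ℚ) q)) ≠ 0 := by
    intro h
    apply hx
    have := Polynomial.eval₂_eq_zero_of_dvd_of_eval₂_eq_zero (RingHom.id ℚ) x
      (RatFunc.denom_div_dvd p q) h
    rwa [Polynomial.eval₂_id] at this
  have h2 : Polynomial.eval₂ (RingHom.id ℚ) x (RatFunc.denom (algebraMap ℚ[X] (RatFunc ℚ) q)) ≠ 0 := by
    simp
  have h3 := RatFunc.eval_mul (f := RingHom.id ℚ) (a := x) h1 h2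
  rw [div_mul_cancel₀ _ hq'] at h3
  rw [RatFunc.eval_algebraMap, RatFunc.eval_algebraMap] at h3
  simp only [Algebra.algebraMap_self, RingHom.id_apply, Polynomial.eval₂_id] at h3
  rw [eq_div_iff hx]
  exact h3.symm

open Polynomial in
/-- `a(x) = (27 (x - 1)² - 3) / (400 x (x + 1))` -/
noncomputable def ra : RatFunc ℚ :=
  algebraMap ℚ[X] (RatFunc ℚ) (C 27 * (X - C 1) ^ 2 - C 3) /
    algebraMap ℚ[X] (RatFunc ℚ) (C 400 * X * (X + C 1))

open Polynomial in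
/-- `b(x) = -81 (2 x - 1) / (200 (x + 1))` -/
noncomputable def rb : RatFunc ℚ :=
  algebraMap ℚ[X] (RatFunc ℚ) (C (-81) * (C 2 * X - C 1)) /
    algebraMap ℚ[X] (RatFunc ℚ) (C 200 * (X + C 1))

def fa (x : ℚ) : ℚ := (27 * (x - 1) ^ 2 - 3) / (400 * x * (x + 1))
def fb (x : ℚ) : ℚ := (-81 * (2 * x - 1)) / (200 * (x + 1))

theorem eval_ra (n : ℕ) (hn : 0 < n) : RatFunc.eval (RingHom.id ℚ) (n : ℚ) ra = fa n := by
  have h : (0 : ℚ) < n := by exact_mod_cast hn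
  unfold ra fa
  rw [eval_div']
  · simp
  · simp
    constructor
    · omega
    · positivity

theorem eval_rb (n : ℕ) (hn : 0 < n) : RatFunc.eval (RingHom.id ℚ) (n : ℚ) rb = fb n := by
  have h : (0 : ℚ) < n := by exact_mod_cast hn
  unfold rb fb
  rw [eval_div']
  · simp
  · simp
    positivity

theorem lim_fa : Tendsto (fun n : ℕ => ((fa n : ℚ) : ℝ)) atTop (𝓝 (27 / 400)) := by
  have h1 : Tendsto (fun n : ℕ => (1 : ℝ) / (n : ℝ)) atTop (𝓝 0) := tendsto_one_div_atTop_nhds_zero_nat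
  have h2 : Tendsto (fun n : ℕ => (27 * (1 - 1 / (n : ℝ)) ^ 2 - 3 * (1 / (n : ℝ)) ^ 2) /
      (400 * (1 + 1 / (n : ℝ)))) atTop (𝓝 ((27 * (1 - 0) ^ 2 - 3 * 0 ^ 2) / (400 * (1 + 0)))) := by
    apply Tendsto.div
    · exact (((h1.const_sub 1).pow 2).const_mul 27).sub ((h1.pow 2).const_mul 3)
    · exact (h1.const_add 1).const_mul 400
    · norm_num
  have e : ((27 * (1 - 0) ^ 2 - 3 * 0 ^ 2) / (400 * (1 + 0)) : ℝ) = 27 / 400 := by norm_num
  rw [e] at h2
  refine h2.congr' ?_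
  filter_upwards [eventually_gt_atTop 0] with n hn
  have h : (0 : ℝ) < n := by exact_mod_cast hn
  unfold fa
  push_cast
  have h3 : (n : ℝ) ≠ 0 := h.ne'
  have h4 : (n : ℝ) + 1 ≠ 0 := by positivity
  field_simp

theorem lim_fb : Tendsto (fun n : ℕ => ((fb n : ℚ) : ℝ)) atTop (𝓝 (-(81 / 100))) := by
  have h1 : Tendsto (fun n : ℕ => (1 : ℝ) / (n : ℝ)) atTop (𝓝 0) := tendsto_one_div_atTop_nhds_zero_nat
  have h2 : Tendsto (fun n : ℕ => (-81 * (2 - 1 / (n : ℝ))) /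
      (200 * (1 + 1 / (n : ℝ)))) atTop (𝓝 ((-81 * (2 - 0)) / (200 * (1 + 0)))) := by
    apply Tendsto.div
    · exact (h1.const_sub 2).const_mul (-81)
    · exact (h1.const_add 1).const_mul 200
    · norm_num
  have e : ((-81 * (2 - 0)) / (200 * (1 + 0)) : ℝ) = -(81 / 100) := by norm_num
  rw [e] at h2
  refine h2.congr' ?_
  filter_upwards [eventually_gt_atTop 0] with n hn
  have h : (0 : ℝ) < n := by exact_mod_cast hn
  unfold fb
  push_cast
  have h3 : (n : ℝ) ≠ 0 := h.ne'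
  have h4 : (n : ℝ) + 1 ≠ 0 := by positivity
  field_simp

/-- the first solution: `V n = [z ^ (n + 1)] u`, where `u (4 - u) (5 - u) = z` -/
noncomputable def V (n : ℕ) : ℚ := S (n + 1) n / (n + 1)

theorem V_pos (n : ℕ) : 0 < V n := div_pos (S_pos n n) (by positivity)

theorem V_rec (m : ℕ) : V (m + 4 + 2) = fb ((m + 4 + 2 : ℕ) : ℚ) * V (m + 4 + 1) +
    fa ((m + 4 + 2 : ℕ) : ℚ) * V (m + 4) := by
  have h := recS m
  unfold V fa fb
  simp only [show m + 4 + 2 + 1 = m + 7 from rfl, show m + 4 + 2 = m + 6 from rfl,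
    show m + 4 + 1 + 1 = m + 6 from rfl, show m + 4 + 1 = m + 5 from rfl]
  push_cast
  generalize S (m + 7) (m + 6) = x at *
  generalize S (m + 6) (m + 5) = y at *
  generalize S (m + 5) (m + 4) = z at *
  have hm : (0 : ℚ) ≤ m := Nat.cast_nonneg m
  generalize (m : ℚ) = t at *
  have h7 : t + 6 + 1 ≠ 0 := by positivity
  have h6 : t + 5 + 1 ≠ 0 := by positivity
  have h5 : t + 4 + 1 ≠ 0 := by positivity
  have h60 : t + 6 ≠ 0 := by positivity
  have h50 : t + 5 ≠ 0 := by positivity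
  have hx : x = ((27 * (t + 5) ^ 2 - 3) * z - 162 * (2 * t + 11) * (t + 5) * y) /
      (400 * (t + 6) * (t + 5)) := by
    rw [eq_div_iff (by positivity)]
    linear_combination h
  rw [hx, show t + 6 - 1 = t + 5 by ring, show t + 5 + 1 = t + 6 by ring,
    show t + 4 + 1 = t + 5 by ring]
  field_simp
  ring

/-- the second solution -/
def W : ℕ → ℚ
  | 0 => 1
  | 1 => -1
  | n + 2 => fb ((n + 2 : ℕ) : ℚ) * W (n + 1) + fa ((n + 2 : ℕ) : ℚ) * W n

theorem fb_neg (n : ℕ) : fb ((n + 2 : ℕ) : ℚ) < 0 := by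
  unfold fb
  push_cast
  apply div_neg_of_neg_of_pos
  · have : (0 : ℚ) ≤ n := Nat.cast_nonneg n
    linarith
  · positivity

theorem fa_pos (n : ℕ) : 0 < fa ((n + 2 : ℕ) : ℚ) := by
  unfold fa
  push_cast
  apply div_pos
  · have : (0 : ℚ) ≤ n := Nat.cast_nonneg n
    nlinarith
  · positivity

theorem W_sign (n : ℕ) : 0 < (-1) ^ n * W n ∧ 0 < (-1) ^ (n + 1) * W (n + 1) := by
  induction n with
  | zero => simp [W]
  | succ n ih =>
    refine ⟨ih.2, ?_⟩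
    have h1 := fb_neg n
    have h2 := fa_pos n
    have e : (-1 : ℚ) ^ (n + 1 + 1) * W (n + 1 + 1) =
        (-fb ((n + 2 : ℕ) : ℚ)) * ((-1) ^ (n + 1) * W (n + 1)) +
          fa ((n + 2 : ℕ) : ℚ) * ((-1) ^ n * W n) := by
      rw [show n + 1 + 1 = n + 2 from rfl, W]
      ring
    rw [e]
    exact add_pos (mul_pos (neg_pos.2 h1) ih.2) (mul_pos h2 ih.1)

theorem W_ratio (n : ℕ) : W (n + 1) / W n < 0 := by
  obtain ⟨h1, h2⟩ := W_sign n
  have h3 : W n ≠ 0 := by rintro h; rw [h] at h1; simp at h1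
  have e : W (n + 1) / W n = -(((-1) ^ (n + 1) * W (n + 1)) / ((-1) ^ n * W n)) := by
    have : ((-1 : ℚ) ^ n) ≠ 0 := pow_ne_zero _ (by norm_num)
    rw [pow_succ]
    field_simp
  rw [e]
  exact neg_neg_of_pos (div_pos h2 h1)

end Pool.Agent.Run7.h12.ZC
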