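import Pool.Agent.Run7.h12.ZC.Rec

set_option autoImplicit false

/-!
# Limits of the ratios of the two solutions (for MP_37fc1f_nt)
-/

open Filter Topology

namespace Pool.Agent.Run7.h12.ZC

/-- backward contraction -/
theorem backward (δ e : ℕ → ℝ) (q M : ℝ) (hq0 : 0 ≤ q) (hq1 : q < 1) (hM : ∀ᶠ n in atTop, δ n ≤ M)
    (h0 : ∀ n, 0 ≤ δ n) (he : Tendsto e atTop (𝓝 0)) (h : ∀ᶠ n in atTop, δ n ≤ e n + q * δ (n + 1)) :
    Tendsto δ atTop (𝓝 0) := by
  rw [Metric.tendsto_atTop]
  intro η hη
  have h1 : ∀ᶠ n in atTop, e n < η / 2 * (1 - q) :=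
    he.eventually (gt_mem_nhds (by have := sub_pos.2 hq1; positivity))
  obtain ⟨N, hN⟩ := eventually_atTop.1 (hM.and (h.and h1))
  refine ⟨N, fun n hn => ?_⟩
  have key : ∀ k : ℕ, ∀ n ≥ N, δ n ≤ η / 2 * (1 - q ^ k) + q ^ k * M := by
    intro k
    induction k with
    | zero => intro n hn; simpa using (hN n hn).1
    | succ k ih =>
      intro n hn
      obtain ⟨-, h2, h3⟩ := hN n hn
      have h4 := ih (n + 1) (by omega)
      have h5 := mul_le_mul_of_nonneg_left h4 hq0
      calc δ n ≤ e n + q * δ (n + 1) := h2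
        _ ≤ η / 2 * (1 - q) + q * (η / 2 * (1 - q ^ k) + q ^ k * M) := by linarith
        _ = η / 2 * (1 - q ^ (k + 1)) + q ^ (k + 1) * M := by ring
  have hlim : Tendsto (fun k : ℕ => η / 2 * (1 - q ^ k) + q ^ k * M) atTop (𝓝 (η / 2)) := by
    have hp := tendsto_pow_atTop_nhds_zero_of_lt_one hq0 hq1
    have := ((hp.const_sub 1).const_mul (η / 2)).add (hp.mul_const M)
    simpa using this
  have h6 : δ n ≤ η / 2 := ge_of_tendsto' hlim (fun k => key k n hn)
  rw [Real.dist_eq, sub_zero, abs_of_nonneg (h0 n)]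
  linarith

/-- forward contraction -/
theorem forward (δ e : ℕ → ℝ) (q : ℝ) (hq0 : 0 ≤ q) (hq1 : q < 1)
    (h0 : ∀ n, 0 ≤ δ n) (he : Tendsto e atTop (𝓝 0)) (h : ∀ᶠ n in atTop, δ (n + 1) ≤ e n + q * δ n) :
    Tendsto δ atTop (𝓝 0) := by
  rw [Metric.tendsto_atTop]
  intro η hη
  have h1 : ∀ᶠ n in atTop, e n < η / 2 * (1 - q) :=
    he.eventually (gt_mem_nhds (by have := sub_pos.2 hq1; positivity))
  obtain ⟨N, hN⟩ := eventually_atTop.1 (h.and h1)
  have key : ∀ k : ℕ, δ (N + k) ≤ η / 2 * (1 - q ^ k) + q ^ k * δ N := by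
    intro k
    induction k with
    | zero => simp
    | succ k ih =>
      obtain ⟨h2, h3⟩ := hN (N + k) (by omega)
      have h5 := mul_le_mul_of_nonneg_left ih hq0
      calc δ (N + (k + 1)) ≤ e (N + k) + q * δ (N + k) := h2
        _ ≤ η / 2 * (1 - q) + q * (η / 2 * (1 - q ^ k) + q ^ k * δ N) := by linarith
        _ = η / 2 * (1 - q ^ (k + 1)) + q ^ (k + 1) * δ N := by ring
  have hlim : Tendsto (fun k : ℕ => η / 2 * (1 - q ^ k) + q ^ k * δ N) atTop (𝓝 (η / 2)) := by
    have hp := tendsto_pow_atTop_nhds_zero_of_lt_one hq0 hq1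
    have := ((hp.const_sub 1).const_mul (η / 2)).add (hp.mul_const (δ N))
    simpa using this
  obtain ⟨K, hK⟩ := eventually_atTop.1 (hlim.eventually (gt_mem_nhds (show η / 2 < η by linarith)))
  refine ⟨N + K, fun n hn => ?_⟩
  obtain ⟨k, rfl⟩ : ∃ k, n = N + k := ⟨n - N, by omega⟩
  rw [Real.dist_eq, sub_zero, abs_of_nonneg (h0 _)]
  exact (key k).trans_lt (hK k (by omega))

/-- the ratios of a positive solution of `v (n+2) + B n v (n+1) = A n v n` -/
theorem ratio_pos (v A B : ℕ → ℝ) (a b l : ℝ) (hv : ∀ n, 0 < v n)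
    (hrec : ∀ᶠ n in atTop, v (n + 2) + B n * v (n + 1) = A n * v n)
    (hA : Tendsto A atTop (𝓝 a)) (hB : Tendsto B atTop (𝓝 b)) (hb : 1 / 2 < b) (hl : 0 < l)
    (hl2 : l < 1 / 2) (hfix : l * (b + l) = a) :
    Tendsto (fun n => v (n + 1) / v n) atTop (𝓝 l) := by
  set r : ℕ → ℝ := fun n => v (n + 1) / v n with hr
  have hr0 : ∀ n, 0 < r n := fun n => div_pos (hv _) (hv _)
  have hB' : ∀ᶠ n in atTop, 1 / 2 < B n := hB.eventually (lt_mem_nhds hb)
  have hA' : ∀ᶠ n in atTop, A n < a + 1 := hA.eventually (gt_mem_nhds (by linarith))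
  have hre : ∀ᶠ n in atTop, r n * (r (n + 1) + B n) = A n := by
    filter_upwards [hrec] with n hn
    have h1 := (hv n).ne'
    have h2 := (hv (n + 1)).ne'
    simp only [hr]
    field_simp
    linear_combination hn
  have key : Tendsto (fun n => |r n - l|) atTop (𝓝 0) := by
    refine backward _ (fun n => 2 * (|A n - a| + l * |B n - b|)) (2 * l) (2 * (a + 1) + l) (by linarith)
      (by linarith) ?_ (fun n => abs_nonneg _) ?_ ?_
    · filter_upwards [hB', hA', hre] with n h1 h2 h3
      have h4 := hr0 n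
      have h5 := hr0 (n + 1)
      have h6 : r n ≤ 2 * (a + 1) := by nlinarith
      rw [abs_le]
      constructor <;> nlinarith
    · have h1 : Tendsto (fun n => |A n - a|) atTop (𝓝 0) := by
        have := (hA.sub_const a).abs
        simpa using this
      have h2 : Tendsto (fun n => |B n - b|) atTop (𝓝 0) := by
        have := (hB.sub_const b).abs
        simpa using this
      have := (h1.add (h2.const_mul l)).const_mul 2
      simpa using this
    · filter_upwards [hB', hre] with n h1 h3
      have h5 := hr0 (n + 1)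
      have e1 : (B n + r (n + 1)) * (r n - l) = (A n - a) - l * (B n - b) - l * (r (n + 1) - l) := by
        rw [← h3, ← hfix]; ring
      have e2 : (B n + r (n + 1)) * |r n - l| ≤ |A n - a| + l * |B n - b| + l * |r (n + 1) - l| := by
        have : (B n + r (n + 1)) * |r n - l| = |(B n + r (n + 1)) * (r n - l)| := by
          rw [abs_mul, abs_of_pos (show 0 < B n + r (n + 1) by linarith)]
        rw [this, e1]
        calc |A n - a - l * (B n - b) - l * (r (n + 1) - l)|
            ≤ |A n - a - l * (B n - b)| + |l * (r (n + 1) - l)| := abs_sub _ _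
          _ ≤ |A n - a| + |l * (B n - b)| + |l * (r (n + 1) - l)| := by
              gcongr; exact abs_sub _ _
          _ = _ := by rw [abs_mul, abs_mul, abs_of_pos hl]
      have h7 : 0 ≤ |r n - l| := abs_nonneg _
      nlinarith
  have h8 : Tendsto (fun n => r n - l) atTop (𝓝 0) := (tendsto_zero_iff_abs_tendsto_zero _).2 key
  have := h8.add_const l
  simpa using this

/-- the ratios of an alternating solution of `w (n+2) + B n w (n+1) = A n w n` -/
theorem ratio_alt (w A B : ℕ → ℝ) (a b l m : ℝ) (hw : ∀ n, w (n + 1) / w n < 0)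
    (hrec : ∀ᶠ n in atTop, w (n + 2) + B n * w (n + 1) = A n * w n)
    (hA : Tendsto A atTop (𝓝 a)) (hB : Tendsto B atTop (𝓝 b)) (hb : 1 / 2 < b) (ha : 0 < a) (hl : 0 < l)
    (hl2 : l < 1 / 2) (hfix : l * m = a) (hm : m = b + l) :
    Tendsto (fun n => w (n + 1) / w n) atTop (𝓝 (-m)) := by
  set s : ℕ → ℝ := fun n => -(w (n + 1) / w n) with hs
  have hs0 : ∀ n, 0 < s n := fun n => neg_pos.2 (hw n)
  have hw0 : ∀ n, w n ≠ 0 := by
    intro n h
    have := hw n
    rw [h, div_zero] at this
    exact lt_irrefl _ this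
  have hB' : ∀ᶠ n in atTop, 1 / 2 < B n := hB.eventually (lt_mem_nhds hb)
  have hA' : ∀ᶠ n in atTop, 0 < A n := hA.eventually (lt_mem_nhds ha)
  have hre : ∀ᶠ n in atTop, s n * s (n + 1) = s n * B n + A n := by
    filter_upwards [hrec] with n hn
    have h1 := hw0 n
    have h2 := hw0 (n + 1)
    simp only [hs]
    field_simp
    linear_combination hn
  have hs1 : ∀ᶠ n in atTop, 1 / 2 < s n := by
    have : ∀ᶠ n in atTop, 1 / 2 < s (n + 1) := by
      filter_upwards [hB', hA', hre] with n h1 h2 h3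
      have h4 := hs0 n
      have h5 : s n * B n < s n * s (n + 1) := by linarith
      exact h1.trans (lt_of_mul_lt_mul_left h5 h4.le)
    obtain ⟨N, hN⟩ := eventually_atTop.1 this
    refine eventually_atTop.2 ⟨N + 1, fun n hn => ?_⟩
    obtain ⟨k, rfl⟩ : ∃ k, n = k + 1 := ⟨n - 1, by omega⟩
    exact hN k (by omega)
  have key : Tendsto (fun n => |s n - m|) atTop (𝓝 0) := by
    refine forward _ (fun n => |B n - b| + 2 * |A n - a|) (2 * l) (by linarith)
      (by linarith) (fun n => abs_nonneg _) ?_ ?_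
    · have h1 : Tendsto (fun n => |A n - a|) atTop (𝓝 0) := by
        have := (hA.sub_const a).abs
        simpa using this
      have h2 : Tendsto (fun n => |B n - b|) atTop (𝓝 0) := by
        have := (hB.sub_const b).abs
        simpa using this
      have := h2.add (h1.const_mul 2)
      simpa using this
    · filter_upwards [hs1, hre] with n h1 h3
      have e1 : s n * (s (n + 1) - m) = s n * (B n - b) + (A n - a) - l * (s n - m) := by
        have : s n * (s (n + 1) - m) = s n * s (n + 1) - s n * m := by ring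
        rw [this, h3, ← hfix, hm]; ring
      have h4 := hs0 n
      have e2 : s n * |s (n + 1) - m| ≤ s n * |B n - b| + |A n - a| + l * |s n - m| := by
        have : s n * |s (n + 1) - m| = |s n * (s (n + 1) - m)| := by
          rw [abs_mul, abs_of_pos h4]
        rw [this, e1]
        calc |s n * (B n - b) + (A n - a) - l * (s n - m)|
            ≤ |s n * (B n - b) + (A n - a)| + |l * (s n - m)| := abs_sub _ _
          _ ≤ |s n * (B n - b)| + |A n - a| + |l * (s n - m)| := by
              gcongr; exact abs_add_le _ _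
          _ = _ := by rw [abs_mul, abs_mul, abs_of_pos hl, abs_of_pos h4]
      have h7 : 0 ≤ |A n - a| + l * |s n - m| := by positivity
      have h8 : s n * |s (n + 1) - m| ≤ s n * (|B n - b| + 2 * (|A n - a| + l * |s n - m|)) := by
        nlinarith
      have h9 := le_of_mul_le_mul_left h8 h4
      linarith
  have h8 : Tendsto (fun n => s n - m) atTop (𝓝 0) := (tendsto_zero_iff_abs_tendsto_zero _).2 key
  have h9 := (h8.add_const m).neg
  simpa [hs] using h9

end Pool.Agent.Run7.h12.ZC
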