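import Pool.Agent.Run7.h12.ZC.Seq

set_option autoImplicit false

/-!
# The recurrence of order two for the first solution (for MP_37fc1f_nt)
-/

namespace Pool.Agent.Run7.h12.ZC

theorem R3s (N k : ℕ) : S N k = (9 * ((N : ℚ) + k + 1) * S N (k + 1) -
    20 * ((k : ℚ) + 2) * S N (k + 2)) / (2 * (N : ℚ) + k) ∨ (2 * (N : ℚ) + k) = 0 := by
  by_cases h : (2 * (N : ℚ) + k) = 0
  · exact Or.inr h
  · left
    rw [eq_div_iff h]
    linear_combination R3 N k

theorem recS (m : ℕ) : 400 * ((m : ℚ) + 6) * ((m : ℚ) + 5) * S (m + 7) (m + 6) +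
    162 * (2 * (m : ℚ) + 11) * ((m : ℚ) + 5) * S (m + 6) (m + 5) =
      (27 * ((m : ℚ) + 5) ^ 2 - 3) * S (m + 5) (m + 4) := by
  have a1 := R1 (m + 6) (m + 3)
  have a2 := R1 (m + 5) (m + 2)
  have a3 := R1 (m + 6) (m + 2)
  have a4 := R1 (m + 6) (m + 1)
  have a5 := R1 (m + 6) m
  have b0 := R3 (m + 7) m
  have b1 := R3 (m + 7) (m + 1)
  have b2 := R3 (m + 7) (m + 2)
  have b3 := R3 (m + 7) (m + 3)
  have b4 := R3 (m + 7) (m + 4)
  simp only [show m + 3 + 2 = m + 5 from rfl, show m + 3 + 1 = m + 4 from rfl,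
    show m + 2 + 2 = m + 4 from rfl, show m + 2 + 1 = m + 3 from rfl,
    show m + 1 + 2 = m + 3 from rfl, show m + 1 + 1 = m + 2 from rfl,
    show m + 4 + 2 = m + 6 from rfl, show m + 4 + 1 = m + 5 from rfl,
    show m + 6 + 1 = m + 7 from rfl, show m + 5 + 1 = m + 6 from rfl] at *
  push_cast at *
  generalize S (m + 7) (m + 6) = x0 at *
  generalize S (m + 7) (m + 5) = x1 at *
  generalize S (m + 7) (m + 4) = x2 at *
  generalize S (m + 7) (m + 3) = x3 at *
  generalize S (m + 7) (m + 2) = x4 at *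
  generalize S (m + 7) (m + 1) = x5 at *
  generalize S (m + 7) m = x6 at *
  have hm : (0 : ℚ) ≤ m := Nat.cast_nonneg m
  generalize (m : ℚ) = t at *
  have c2 : x2 = 6 * x1 - 20 / 3 * x0 := by
    have : (3 * t + 18) * x2 = (3 * t + 18) * (6 * x1 - 20 / 3 * x0) := by linear_combination b4
    exact mul_left_cancel₀ (by positivity) this
  have c3 : x3 = (9 * (2 * t + 11) * x2 - 20 * (t + 5) * x1) / (3 * t + 17) := by
    rw [eq_div_iff (by positivity)]; linear_combination b3
  have c4 : x4 = (9 * (2 * t + 10) * x3 - 20 * (t + 4) * x2) / (3 * t + 16) := by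
    rw [eq_div_iff (by positivity)]; linear_combination b2
  have c5 : x5 = (9 * (2 * t + 9) * x4 - 20 * (t + 3) * x3) / (3 * t + 15) := by
    rw [eq_div_iff (by positivity)]; linear_combination b1
  have c6 : x6 = (9 * (2 * t + 8) * x5 - 20 * (t + 2) * x4) / (3 * t + 14) := by
    rw [eq_div_iff (by positivity)]; linear_combination b0
  have h17 : (3 * t + 17) ≠ 0 := by positivity
  have h16 : (3 * t + 16) ≠ 0 := by positivity
  have h15 : (3 * t + 15) ≠ 0 := by positivity
  have h14 : (3 * t + 14) ≠ 0 := by positivity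
  rw [a2, a1, a3, a4, a5, c6, c5, c4, c3, c2]
  field_simp
  ring

end Pool.Agent.Run7.h12.ZC
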