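import Mathlib

set_option autoImplicit false

/-!
# Two rational solutions of a recurrence of order two (for MP_37fc1f_nt)

`P = 1 / ((4 - X) (5 - X))`, `S n k` is the coefficient of `X ^ k` in `P ^ n`. By Lagrange's formula
`S n (n - 1) / n` is the coefficient of `z ^ n` in the power series `u` with `u (4 - u) (5 - u) = z`,
the branch at `y = -3` (`y = u - 3`) of the inverse function of `z = y ^ 3 - 7 y + 6`.
-/

namespace Pool.Agent.Run7.h12.ZC

open PowerSeries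

noncomputable def A : ℚ⟦X⟧ := PowerSeries.mk (fun k => (1 / 4 : ℚ) ^ (k + 1))
noncomputable def B : ℚ⟦X⟧ := PowerSeries.mk (fun k => (1 / 5 : ℚ) ^ (k + 1))
noncomputable def P : ℚ⟦X⟧ := A * B
noncomputable def G : ℚ⟦X⟧ := 20 - 9 * X + X ^ 2

theorem A_mul : A * (4 - X) = 1 := by
  ext n
  have h4 : (4 : ℚ⟦X⟧) = C (4 : ℚ) := (map_ofNat C 4).symm
  rw [mul_sub, h4]
  rcases n with _ | n
  · simp [A]
  · rw [map_sub, coeff_mul_C, coeff_succ_mul_X]
    simp only [A, coeff_mk, coeff_one]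
    rw [pow_succ (1 / 4 : ℚ) (n + 1)]
    simp

theorem B_mul : B * (5 - X) = 1 := by
  ext n
  have h4 : (5 : ℚ⟦X⟧) = C (5 : ℚ) := (map_ofNat C 5).symm
  rw [mul_sub, h4]
  rcases n with _ | n
  · simp [B]
  · rw [map_sub, coeff_mul_C, coeff_succ_mul_X]
    simp only [B, coeff_mk, coeff_one]
    rw [pow_succ (1 / 5 : ℚ) (n + 1)]
    simp

theorem P_mul_G : P * G = 1 := by
  have h : G = (4 - X) * (5 - X) := by unfold G; ring
  rw [h]
  calc P * ((4 - X) * (5 - X)) = (A * (4 - X)) * (B * (5 - X)) := by unfold P; ring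
    _ = 1 := by rw [A_mul, B_mul, one_mul]

theorem mul_pos' {F K : ℚ⟦X⟧} (hF : ∀ k, 0 < coeff k F) (hK : ∀ k, 0 < coeff k K) (k : ℕ) :
    0 < coeff k (F * K) := by
  rw [coeff_mul]
  apply Finset.sum_pos
  · intro p _
    exact mul_pos (hF _) (hK _)
  · exact ⟨(0, k), by simp⟩

theorem P_pos (k : ℕ) : 0 < coeff k P := by
  apply mul_pos'
  · intro k; simp only [A, coeff_mk]; positivity
  · intro k; simp only [B, coeff_mk]; positivity

theorem pow_pos' (n k : ℕ) : 0 < coeff k (P ^ (n + 1)) := by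
  induction n generalizing k with
  | zero => simpa using P_pos k
  | succ n ih =>
    rw [pow_succ]
    exact mul_pos' ih P_pos k

noncomputable def S (n k : ℕ) : ℚ := coeff k (P ^ n)

theorem S_pos (n k : ℕ) : 0 < S (n + 1) k := pow_pos' n k

/-- the relation between the levels -/
theorem R1 (n k : ℕ) : S n (k + 2) = 20 * S (n + 1) (k + 2) - 9 * S (n + 1) (k + 1) + S (n + 1) k := by
  have h : P ^ n = 20 * P ^ (n + 1) - 9 * (P ^ (n + 1) * X) + P ^ (n + 1) * X ^ 2 := by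
    calc P ^ n = P ^ n * (P * G) := by rw [P_mul_G, mul_one]
      _ = _ := by unfold G; ring
  have h20 : (20 : ℚ⟦X⟧) = C (20 : ℚ) := (map_ofNat C 20).symm
  have h9 : (9 : ℚ⟦X⟧) = C (9 : ℚ) := (map_ofNat C 9).symm
  unfold S
  conv_lhs => rw [h]
  rw [h20, h9, map_add, map_sub, coeff_C_mul, coeff_C_mul, coeff_mul_X_pow]
  rw [show k + 2 = (k + 1) + 1 from rfl, coeff_succ_mul_X]

theorem dP : d⁄dX ℚ P * G = P * (9 - 2 * X) := by
  have h := congrArg (d⁄dX ℚ) P_mul_G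
  rw [Derivation.leibniz, smul_eq_mul, smul_eq_mul] at h
  have hG : d⁄dX ℚ G = 2 * X - 9 := by
    unfold G
    have h20 : (20 : ℚ⟦X⟧) = C (20 : ℚ) := (map_ofNat C 20).symm
    have h9 : (9 : ℚ⟦X⟧) = C (9 : ℚ) := (map_ofNat C 9).symm
    rw [map_add, map_sub, Derivation.leibniz, Derivation.leibniz_pow, h20, h9, derivative_C,
      derivative_C, derivative_X]
    simp
    ring
  rw [hG, Derivation.map_one_eq_zero] at h
  linear_combination h

theorem dPn (n : ℕ) : d⁄dX ℚ (P ^ n) * G = (n : ℚ⟦X⟧) * (P ^ n * (9 - 2 * X)) := by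
  rcases n with _ | n
  · simp
  · rw [Derivation.leibniz_pow]
    simp only [Nat.add_sub_cancel, smul_eq_mul, nsmul_eq_mul]
    calc ((n + 1 : ℕ) : ℚ⟦X⟧) * (P ^ n * d⁄dX ℚ P) * G
        = ((n + 1 : ℕ) : ℚ⟦X⟧) * (P ^ n * (d⁄dX ℚ P * G)) := by ring
      _ = _ := by rw [dP]; ring

/-- the relation on one level -/
theorem R3 (N k : ℕ) : 20 * ((k : ℚ) + 2) * S N (k + 2) =
    9 * ((N : ℚ) + k + 1) * S N (k + 1) - (2 * (N : ℚ) + k) * S N k := by
  have h := congrArg (coeff (k + 1)) (dPn N)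
  have e1 : d⁄dX ℚ (P ^ N) * G = C (20 : ℚ) * d⁄dX ℚ (P ^ N) - C (9 : ℚ) * (d⁄dX ℚ (P ^ N) * X) +
      d⁄dX ℚ (P ^ N) * X ^ 2 := by
    have h20 : C (20 : ℚ) = (20 : ℚ⟦X⟧) := map_ofNat C 20
    have h9 : C (9 : ℚ) = (9 : ℚ⟦X⟧) := map_ofNat C 9
    rw [h20, h9]; unfold G; ring
  have e2 : (N : ℚ⟦X⟧) * (P ^ N * (9 - 2 * X)) = C (9 * (N : ℚ)) * P ^ N - C (2 * (N : ℚ)) * (P ^ N * X) := by
    have h1 : C (9 * (N : ℚ)) = (9 * N : ℚ⟦X⟧) := by rw [map_mul, map_ofNat, map_natCast]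
    have h2 : C (2 * (N : ℚ)) = (2 * N : ℚ⟦X⟧) := by rw [map_mul, map_ofNat, map_natCast]
    rw [h1, h2]; ring
  rw [e1, e2, map_add, map_sub, map_sub, coeff_C_mul, coeff_C_mul, coeff_C_mul, coeff_C_mul,
    coeff_succ_mul_X, coeff_succ_mul_X, coeff_mul_X_pow'] at h
  rw [coeff_derivative, coeff_derivative] at h
  unfold S
  rcases k with _ | k
  · simp at h ⊢
    linear_combination h
  · rw [if_pos (by omega), show k + 1 + 1 - 2 = k by omega, coeff_derivative] at h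
    push_cast at h ⊢
    linear_combination h

end Pool.Agent.Run7.h12.ZC
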